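import Pool.Agent.W945.Lc.Stm

set_option autoImplicit false

namespace Pool.Agent.W344.Lc.MGF

open Pool.Agent.W945.Pw Pool.Agent.W945.Lc

theorem hom {n : ℕ} (D : DT n) (z w₀ w₁ M : ℝ) :
    D.wt z (M * w₀) (M * w₁) = M * D.wt z w₀ w₁ := by
  induction D with
  | leaf b => cases b <;> simp [DT.wt]
  | node i l r hl hr =>
    simp only [DT.wt]
    rw [hl, hr]
    ring

theorem ypow (a : ℕ) (ha : a ≤ 5000) :
    y ^ a ≤ 1 + a * (1 / 10 ^ 8 : ℝ) + (a : ℝ) ^ 2 * (1 / 10 ^ 8) ^ 2 := by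
  induction a with
  | zero => simp
  | succ a ih =>
    have h1 := ih (by omega)
    have h2 : (a : ℝ) ≤ 5000 := by exact_mod_cast (by omega : a ≤ 5000)
    have h0 : (0 : ℝ) ≤ a := Nat.cast_nonneg a
    have hy : (0 : ℝ) ≤ y := by unfold y; norm_num
    calc y ^ (a + 1) = y ^ a * y := pow_succ _ _
      _ ≤ (1 + a * (1 / 10 ^ 8 : ℝ) + (a : ℝ) ^ 2 * (1 / 10 ^ 8) ^ 2) * y :=
          mul_le_mul_of_nonneg_right h1 hy
      _ ≤ 1 + ((a + 1 : ℕ) : ℝ) * (1 / 10 ^ 8 : ℝ) +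
          (((a + 1 : ℕ) : ℝ)) ^ 2 * (1 / 10 ^ 8) ^ 2 := by
          unfold y
          push_cast
          nlinarith [mul_nonneg h0 (sub_nonneg.mpr h2)]

theorem main : MGF.Stm := by
  intro n D
  induction D with
  | leaf b =>
    intro a₀ a₁ h
    have key : ∀ a : ℕ, a ≤ 5000 → y ^ a ≤ 1 + ((a : ℝ) + 1 / 4) / 10 ^ 8 := by
      intro a ha
      have h1 := ypow a ha
      have h2 : (a : ℝ) ≤ 5000 := by exact_mod_cast ha
      have h0 : (0 : ℝ) ≤ a := Nat.cast_nonneg a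
      have h3 : (a : ℝ) ^ 2 ≤ 5000 ^ 2 := pow_le_pow_left₀ h0 h2 2
      refine h1.trans ?_
      nlinarith
    have h0 : a₀ ≤ 5000 := by
      have := le_max_left a₀ a₁
      simp only [DT.depth] at h
      omega
    have h1 : a₁ ≤ 5000 := by
      have := le_max_right a₀ a₁
      simp only [DT.depth] at h
      omega
    cases b
    · simpa [DT.wt, DT.cost, DT.pr] using key a₀ h0
    · simpa [DT.wt, DT.cost, DT.pr] using key a₁ h1
  | node i l r hl hr =>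
    intro a₀ a₁ h
    simp only [DT.depth] at h
    have e0 : y ^ 200 * y ^ a₀ = y ^ (a₀ + 200) := by rw [← pow_add, Nat.add_comm]
    have e1 : y ^ 200 * y ^ a₁ = y ^ (a₁ + 200) := by rw [← pow_add, Nat.add_comm]
    have hL := hl (a₀ + 200) (a₁ + 200) (by omega)
    have hR := hr (a₀ + 200) (a₁ + 200) (by omega)
    rw [← e0, ← e1, hom] at hL hR
    simp only [DT.wt, DT.cost, DT.pr]
    push_cast at hL hR
    have : y ^ 200 * ((l.wt (y ^ 200) (y ^ a₀) (y ^ a₁) + r.wt (y ^ 200) (y ^ a₀) (y ^ a₁)) / 2) =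
        (y ^ 200 * l.wt (y ^ 200) (y ^ a₀) (y ^ a₁) +
          y ^ 200 * r.wt (y ^ 200) (y ^ a₀) (y ^ a₁)) / 2 := by ring
    rw [this]
    linarith

end Pool.Agent.W344.Lc.MGF
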